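import Pool.Agent.L7h95.CD.Stm

set_option autoImplicit false

/-! Project CD (MP_ede3c6_co), parts TOK and COD (helper63). -/

namespace Pool.Agent.L7h63.CD

open Finset Function Pool.Agent.L7h95.CD

theorem s_TOK : S_TOK := by
  intro k a D hD hS
  let G : ℕ → Prop := fun j => ∃ h : Fin k, j ≤ h.1 ∧ h.1 % 2 = j % 2 ∧ dg k a h = D ∧
    ∀ m : Fin k, j ≤ m.1 → m.1 < h.1 → m.1 % 2 = j % 2 → dg k a m + 1 = D
  refine ⟨G, fun i => ?_⟩
  have hB : (2 ≤ i.1 ∧ ¬ G i.1 ∨ i.1 + 2 < k ∧ G (i.1 + 2) → dg k a i + 1 ≤ D) := by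
    intro h
    by_contra hlt
    have hi : dg k a i = D := by
      have := hD i
      omega
    rcases h with ⟨_, h⟩ | ⟨_, h, h1, h2, h3, h4⟩
    · exact h ⟨i, le_rfl, rfl, hi, fun m h1 h2 => by omega⟩
    · obtain ⟨m, m1, m2, m3, m4⟩ := hS i h (by omega) (by omega) hi h3
      have := h4 m (by omega) m2 (by omega)
      omega
  refine ⟨fun h1 h2 => ?_, hB, hD i⟩
  have h3 := hB (Or.inl h1)
  by_contra hlt
  apply h1.2
  obtain ⟨_, h, e1, e2, e3, e4⟩ := h2
  refine ⟨h, by omega, by omega, e3, fun m m1 m2 m3 => ?_⟩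
  by_cases hm : m.1 = i.1
  · have : m = i := Fin.ext hm
    subst this
    omega
  · exact e4 m (by omega) m2 (by omega)

theorem s_COD : S_COD := by
  intro p r hr hp
  haveI : NeZero r := ⟨by rintro rfl; simp at hr⟩
  have h2 : ∀ v : ZMod r, 2 * v = 0 → v = 0 := by
    intro v hv
    have hu : IsUnit ((2 : ℕ) : ZMod r) :=
      (ZMod.isUnit_iff_coprime 2 r).2 (Nat.coprime_two_left.2 hr)
    push_cast at hu
    exact (hu.mul_right_eq_zero).1 hv
  obtain ⟨e, he⟩ : ∃ e : Fin p → ZMod r × ZMod r, Function.Injective e := by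
    have hc : Fintype.card (Fin p) ≤ Fintype.card (ZMod r × ZMod r) := by
      simp only [Fintype.card_fin, Fintype.card_prod, ZMod.card]
      nlinarith [hp]
    obtain ⟨f⟩ := Function.Embedding.nonempty_of_card_le hc
    exact ⟨f, f.injective⟩
  let ψ : ZMod r × ZMod r → Fin 4 → ZMod r := fun z => ![z.1, z.2, z.1 + z.2, z.1 + 2 * z.2]
  refine ⟨fun j g => (ZMod.finEquiv r).symm (ψ (e j) g), ?_⟩
  intro i j hij
  rw [Finset.card_le_one]
  intro a ha b hb
  simp only [mem_filter, mem_univ, true_and, EmbeddingLike.apply_eq_iff_eq] at ha hb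
  by_contra hab
  apply hij
  apply he
  have key : (e i).1 = (e j).1 ∧ (e i).2 = (e j).2 := by
    fin_cases a <;> fin_cases b <;> simp [ψ] at ha hb hab ⊢ <;> constructor <;>
    first
    | linear_combination ha
    | linear_combination hb
    | linear_combination hb - ha
    | linear_combination ha - hb
    | linear_combination hb - 2 * ha
    | linear_combination ha - 2 * hb
    | linear_combination 2 * ha - hb
    | linear_combination 2 * hb - ha
    | (apply sub_eq_zero.1; apply h2; linear_combination hb - ha)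
    | (apply sub_eq_zero.1; apply h2; linear_combination ha - hb)
  exact Prod.ext key.1 key.2

end Pool.Agent.L7h63.CD
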