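import Pool.Agent.L7h95.CD.Stm3

set_option autoImplicit false

/-! Project CD (MP_ede3c6_co), part U4 (helper63): the points of the path are different. -/

namespace Pool.Agent.L7h63.CD

open Finset Function Pool.Agent.L7h95.CD

theorem pt_inj {m s : ℕ} {u u' : Fin m → ZMod 2} {y y' : Fin s → ZMod 2} {x x' : Fin 2 → ZMod 2}
    (h : pt u y x = pt u' y' x') : u = u' ∧ y = y' ∧ x = x' :=
  ⟨funext fun i => congrFun h (.inl i), funext fun i => congrFun h (.inr (.inl i)),
    funext fun i => congrFun h (.inr (.inr i))⟩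

theorem lay_ne (q : ℕ) : lay q ≠ 0 := by
  unfold lay
  split_ifs
  · intro h
    have := congrFun h 0
    simp at this
  · intro h
    have := congrFun h 1
    simp at this

theorem lay_inj {q q' : ℕ} (h : lay q = lay q') : q % 2 = q' % 2 := by
  unfold lay at h
  have h0 := congrFun h 0
  by_cases h1 : q % 2 = 0 <;> by_cases h2 : q' % 2 = 0
  · omega
  · simp [h1, h2] at h0
  · simp [h1, h2] at h0
  · omega

theorem dist_single {s : ℕ} (x : Fin s → ZMod 2) (i : Fin s) :
    hammingDist (x + Pi.single i 1) x ≤ 1 := by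
  unfold hammingDist
  refine (Finset.card_le_card (t := {i}) fun j hj => ?_).trans (by simp)
  rw [Finset.mem_filter] at hj
  rw [Finset.mem_singleton]
  by_contra hji
  apply hj.2
  simp [Pi.single_eq_of_ne hji]

/-- the middle coordinates of the transition -/
def yy {s : ℕ} (z : ℕ → Fin s → ZMod 2) (a b : ℕ → Fin s) (M q r : ℕ) : Fin s → ZMod 2 :=
  if r = M then z q else if r = M + 1 then z q + Pi.single (a q) 1
    else if r = M + 2 then z q + Pi.single (a q) 1 + Pi.single (b q) 1 else z (q + 1)

theorem near {s N : ℕ} {z : ℕ → Fin s → ZMod 2} {a b c : ℕ → Fin s} (h : CodeP s N z a b c)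
    (M q i : ℕ) (hq : q + 1 < N) (hi : i < 4) :
    ∃ p, (p = q ∨ p = q + 1) ∧ hammingDist (yy z a b M q (M + i)) (z p) ≤ 1 := by
  interval_cases i
  · exact ⟨q, Or.inl rfl, by simp [yy]⟩
  · refine ⟨q, Or.inl rfl, ?_⟩
    have e : yy z a b M q (M + 1) = z q + Pi.single (a q) 1 := by simp [yy]
    rw [e]
    exact dist_single _ _
  · refine ⟨q + 1, Or.inr rfl, ?_⟩
    have e : yy z a b M q (M + 2) = z q + Pi.single (a q) 1 + Pi.single (b q) 1 := by simp [yy]
    rw [e, h.step q hq, hammingDist_comm]
    exact dist_single _ _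
  · exact ⟨q + 1, Or.inr rfl, by simp [yy]⟩

theorem yy_inj {s N : ℕ} {z : ℕ → Fin s → ZMod 2} {a b c : ℕ → Fin s} (h : CodeP s N z a b c)
    (M q i j : ℕ) (hq : q + 1 < N) (hi : i < 4) (hj : j < 4)
    (he : yy z a b M q (M + i) = yy z a b M q (M + j)) : i = j := by
  obtain ⟨hab, hac, hbc⟩ := h.ab q hq
  have hs := h.step q hq
  have hA : ∀ i, i < 4 → yy z a b M q (M + i) (a q) = z q (a q) + if i = 0 then 0 else 1 := by
    intro i hi
    interval_cases i <;> simp [yy, hs, hab, hac]
  have hB : ∀ i, i < 4 → yy z a b M q (M + i) (b q) = z q (b q) + if i ≤ 1 then 0 else 1 := by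
    intro i hi
    interval_cases i <;> simp [yy, hs, hab.symm, hbc]
  have hC : ∀ i, i < 4 → yy z a b M q (M + i) (c q) = z q (c q) + if i ≤ 2 then 0 else 1 := by
    intro i hi
    interval_cases i <;> simp [yy, hs, hac.symm, hbc.symm]
  have eA := hA i hi
  have eB := hB i hi
  have eC := hC i hi
  rw [he, hA j hj] at eA
  rw [he, hB j hj] at eB
  rw [he, hC j hj] at eC
  have fA := add_left_cancel eA
  have fB := add_left_cancel eB
  have fC := add_left_cancel eC
  clear eA eB eC hA hB hC he hs
  interval_cases i <;> interval_cases j <;> simp at fA fB fC <;> rfl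

theorem s_U4 : S_U4 := by
  intro m s N c0 γ z a b c hG hC q r q' r' h1 h2 h
  have far : ∀ p p', p < N → p' < N → hammingDist (z p) (z p') ≤ 2 → p = p' := by
    intro p p' hp hp' hd
    rcases lt_trichotomy p p' with hlt | heq | hgt
    · have := hC.far p p' hlt hp'
      omega
    · exact heq
    · have := hC.far p' p hgt hp
      rw [hammingDist_comm] at this
      omega
  have ginj : ∀ u v, u < 2 ^ m → v < 2 ^ m → γ u = γ v → u = v := by
    intro u v hu hv he
    rcases lt_trichotomy u v with hlt | heq | hgt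
    · exact absurd he (hG.inj u v hlt hv)
    · exact heq
    · exact absurd he.symm (hG.inj v u hgt hu)
  by_cases hr : r < 2 ^ m
  · have hqN : q < N := by rcases h1 with h1 | h1 <;> omega
    by_cases hr' : r' < 2 ^ m
    · simp only [bp, if_pos hr, if_pos hr'] at h
      obtain ⟨e1, e2, _⟩ := pt_inj h
      have hq : q = q' := far q q' hqN (by rcases h2 with h2 | h2 <;> omega)
        (by rw [e2, hammingDist_self]; omega)
      subst hq
      refine ⟨rfl, ?_⟩
      split_ifs at e1
      · exact ginj _ _ hr hr' e1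
      · have := ginj _ _ (by omega) (by omega) e1
        omega
    · simp only [bp, if_pos hr, if_neg hr'] at h
      exact absurd (pt_inj h).2.2.symm (lay_ne q')
  · by_cases hr' : r' < 2 ^ m
    · simp only [bp, if_neg hr, if_pos hr'] at h
      exact absurd (pt_inj h).2.2 (lay_ne q)
    · have k1 : q + 1 < N ∧ r < 2 ^ m + 4 := by
        rcases h1 with h1 | h1
        · exact absurd h1.2 hr
        · exact h1
      have k2 : q' + 1 < N ∧ r' < 2 ^ m + 4 := by
        rcases h2 with h2 | h2
        · exact absurd h2.2 hr'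
        · exact h2
      obtain ⟨i, rfl⟩ := Nat.exists_eq_add_of_le (not_lt.1 hr)
      obtain ⟨j, rfl⟩ := Nat.exists_eq_add_of_le (not_lt.1 hr')
      simp only [bp, if_neg hr, if_neg hr'] at h
      obtain ⟨_, e2, e3⟩ := pt_inj h
      have e4 : yy z a b (2 ^ m) q (2 ^ m + i) = yy z a b (2 ^ m) q' (2 ^ m + j) := e2
      have hpar := lay_inj e3
      obtain ⟨p, hp, dp⟩ := near hC (2 ^ m) q i k1.1 (by omega)
      obtain ⟨p', hp', dp'⟩ := near hC (2 ^ m) q' j k2.1 (by omega)
      have hpp : p = p' := by
        apply far p p' (by omega) (by omega)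
        refine (hammingDist_triangle _ (yy z a b (2 ^ m) q (2 ^ m + i)) _).trans ?_
        rw [hammingDist_comm (z p)]
        rw [← e4] at dp'
        omega
      have hq : q = q' := by omega
      subst hq
      have := yy_inj hC (2 ^ m) q i j k1.1 (by omega) (by omega) e4
      exact ⟨rfl, by omega⟩

end Pool.Agent.L7h63.CD
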